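import Pool.Agent.Helper62.MinusOne.NT2

set_option autoImplicit false

namespace Pool.Agent.MinusOne

/-- For `p = 3 mod 4` the exponent of `p` in `v = 2^c p^s` is even. -/
theorem s_even {p : ℕ} (hp : p.Prime) (hp4 : p % 4 = 3) {c s r : ℕ} (hc : 1 ≤ c) (hr : 1 ≤ r)
    (hrs : r ≤ s) (k : ℤ)
    (hV : 2 ^ c * (p : ℤ) ^ s * k - k ^ 2 = ((p : ℤ) ^ r) ^ 2 * (2 ^ c * (p : ℤ) ^ s - 1)) :
    Even s := by
  by_contra hcon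
  rw [Nat.not_even_iff_odd] at hcon
  obtain ⟨t, ht⟩ : ∃ t, s = t + r := ⟨s - r, by omega⟩
  obtain ⟨c', hc'⟩ : ∃ c', c = c' + 1 := ⟨c - 1, by omega⟩
  have h3 : (2 : ℤ) ^ c * (p : ℤ) ^ s = 2 * (p : ℤ) ^ r * (2 ^ c' * (p : ℤ) ^ t) := by
    rw [hc', ht]
    ring
  have h4 : (2 ^ c * (p : ℤ) ^ s) ^ 2 = (2 * (p : ℤ) ^ r) ^ 2 * (2 ^ c' * (p : ℤ) ^ t) ^ 2 := by
    rw [h3]
    ring
  have h2 : (2 ^ c * (p : ℤ) ^ s - 2 * k) ^ 2 =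
      (2 * (p : ℤ) ^ r) ^ 2 * ((2 ^ c' * (p : ℤ) ^ t) ^ 2 - 2 ^ c * (p : ℤ) ^ s + 1) := by
    linear_combination h4 - 4 * hV
  have h5 : 2 * (p : ℤ) ^ r ∣ 2 ^ c * (p : ℤ) ^ s - 2 * k :=
    (Int.pow_dvd_pow_iff two_ne_zero).mp ⟨_, h2⟩
  obtain ⟨z, hz⟩ := h5
  have hpos : (0 : ℤ) < (2 * (p : ℤ) ^ r) ^ 2 := by
    have : (0 : ℤ) < p := by exact_mod_cast hp.pos
    positivity
  have h6 : z ^ 2 = (2 ^ c' * (p : ℤ) ^ t) ^ 2 - 2 ^ c * (p : ℤ) ^ s + 1 := by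
    apply mul_left_cancel₀ hpos.ne'
    rw [← h2, hz]
    ring
  refine nt hp hp4 (a := c) (c := s) (N := 2 ^ c' * p ^ t) (m := p ^ r) (x := z.natAbs) hcon ?_ ?_ ?_
  · rw [hc', ht]
    ring
  · exact dvd_pow_self p (by omega)
  · have h7 : ((z.natAbs ^ 2 + 2 * (2 ^ c' * p ^ t) * p ^ r : ℕ) : ℤ) =
        (((2 ^ c' * p ^ t) ^ 2 + 1 : ℕ) : ℤ) := by
      push_cast
      rw [sq_abs, h6, h3]
      ring
    exact_mod_cast h7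

end Pool.Agent.MinusOne
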