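import Mathlib

/-!
# The Diophantine equation of abelian difference sets with multiplier -1

`x ^ 2 = N ^ 2 - 2 N m + 1` with `2 N m = 2 ^ a p ^ c`, `p ≡ 3 mod 4` prime, `c` odd, `p ∣ m`, has no solutions.
-/

set_option autoImplicit false

namespace Pool.Agent.MinusOne

open NumberTheorySymbols jacobiSym

/-- symbols of congruent numbers -/
theorem J_congr {a b : ℤ} {n : ℕ} (h : (n : ℤ) ∣ a - b) : J(a | n) = J(b | n) :=
  jacobiSym.mod_left' (Int.emod_eq_emod_iff_emod_sub_eq_zero.2 (Int.emod_eq_zero_of_dvd h))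

theorem J_two {n : ℕ} (h : n % 8 = 1 ∨ n % 8 = 7) : J(2 | n) = 1 := by
  have ho : Odd n := by rw [Nat.odd_iff]; omega
  rw [jacobiSym.at_two ho, ZMod.χ₈_nat_eq_if_mod_eight]
  have h1 : ¬ n % 2 = 0 := by omega
  rw [if_neg h1, if_pos h]

theorem J_neg_one {n : ℕ} (ho : Odd n) : J(-1 | n) = if n % 4 = 1 then 1 else -1 := by
  rw [jacobiSym.at_neg_one ho, ZMod.χ₄_nat_eq_if_mod_four]
  have h1 : ¬ n % 2 = 0 := by rw [Nat.odd_iff] at ho; omega
  rw [if_neg h1]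

theorem coprime_gcd {a b : ℕ} (h : Nat.Coprime a b) : (a : ℤ).gcd b = 1 := by
  rw [Int.gcd_natCast_natCast]; exact h

/-- quadratic reciprocity for `p ≡ 3 mod 4` -/
theorem qr {p u : ℕ} (hp4 : p % 4 = 3) (hu : Odd u) (hc : Nat.Coprime u p) :
    J(p | u) * J(u | p) = if u % 4 = 1 then 1 else -1 := by
  have h1 : p % 2 = 1 := by omega
  have h2 : u % 2 = 1 := Nat.odd_iff.1 hu
  have h3 := jacobiSym.quadratic_reciprocity_if h1 h2
  have h4 := jacobiSym.sq_one (coprime_gcd hc)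
  rw [← h3]
  by_cases h5 : u % 4 = 1
  · rw [if_pos h5, if_neg (by omega)]
    rw [sq] at h4; exact h4
  · rw [if_neg h5, if_pos ⟨hp4, by omega⟩]
    rw [sq] at h4
    linarith

theorem pow_even_unit {z : ℤ} (hz : z ^ 2 = 1) {n : ℕ} (hn : Even n) : z ^ n = 1 := by
  obtain ⟨k, rfl⟩ := hn
  rw [← two_mul, pow_mul, hz, one_pow]

theorem pow_odd_unit {z : ℤ} (hz : z ^ 2 = 1) {n : ℕ} (hn : Odd n) : z ^ n = z := by
  obtain ⟨k, rfl⟩ := hn
  rw [pow_succ, pow_mul, hz, one_pow, one_mul]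

/-- the case where the power of `p` is even -/
theorem jacA {p u w s M E Δ : ℕ} (hp : p.Prime) (hp4 : p % 4 = 3) (hs : Odd s) (hM : 3 ≤ M)
    (hpar : Even (M + Δ)) (hE : Even E) (hE1 : 1 ≤ E)
    (he : w * 2 ^ M = u * p ^ E + 1 ∨ u * p ^ E = w * 2 ^ M + 1)
    (h1 : (p : ℤ) ∣ u * w - 2 ^ Δ) (h2 : (u : ℤ) ∣ 2 ^ Δ - p ^ s) : False := by
  have : Fact p.Prime := ⟨hp⟩
  have hp2 : p % 2 = 1 := by omega
  -- `u` is odd and coprime to `p`
  have h8 : (2 : ℕ) ^ M % 8 = 0 := by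
    obtain ⟨k, rfl⟩ := Nat.exists_eq_add_of_le hM
    rw [pow_add]; omega
  have hw8 : w * 2 ^ M % 8 = 0 := by rw [Nat.mul_mod, h8]; simp
  have hpE : p ^ E % 8 = 1 := by
    obtain ⟨k, rfl⟩ := hE
    rw [← two_mul, pow_mul]
    have h3 : p ^ 2 % 8 = 1 := by
      have : p % 8 = 3 ∨ p % 8 = 7 := by omega
      rcases this with h | h <;> rw [pow_two, Nat.mul_mod, h]
    rw [Nat.pow_mod, h3]; simp
  have hu8 : u * p ^ E % 8 = u % 8 := by rw [Nat.mul_mod, hpE, mul_one, Nat.mod_mod]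
  have hcop : Nat.Coprime u p := by
    rw [Nat.coprime_comm, hp.coprime_iff_not_dvd]
    intro hd
    have h3 : (p : ℤ) ∣ 2 ^ Δ := by
      have h4 : (p : ℤ) ∣ u * w := Dvd.dvd.mul_right (Int.natCast_dvd_natCast.2 hd) _
      have := dvd_sub h4 h1
      rwa [sub_sub_cancel] at this
    have h4 : p ∣ 2 ^ Δ := by exact_mod_cast h3
    have h5 : p ∣ 2 := hp.dvd_of_dvd_pow h4
    have h6 := Nat.le_of_dvd (by norm_num) h5
    have h7 : p = 1 ∨ p = 2 := by have := hp.two_le; omega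
    omega
  have hodd : Odd u := by
    rw [Nat.odd_iff]
    rcases he with he | he <;> omega
  have hu78 : u % 8 = 1 ∨ u % 8 = 7 := by
    rcases he with he | he <;> omega
  have hJ2u : J(2 | u) = 1 := J_two hu78
  -- `J(p | u) = 1`
  have hpu2 := jacobiSym.sq_one (coprime_gcd hcop.symm)
  have h3 : J((p : ℤ) | u) = 1 := by
    have h4 := J_congr h2
    rw [jacobiSym.pow_left, jacobiSym.pow_left, hJ2u, one_pow, pow_odd_unit hpu2 hs] at h4
    exact h4.symm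
  -- `J(u | p)`
  have h2p : J((2 : ℤ) | p) ^ 2 = 1 := by
    have h5 : Nat.Coprime 2 p := by rw [Nat.coprime_two_left]; exact Nat.odd_iff.2 hp2
    exact_mod_cast jacobiSym.sq_one (coprime_gcd h5)
  have hpdvd : (p : ℤ) ∣ (p : ℤ) ^ E := dvd_pow_self _ (by omega)
  have h6 : J((u : ℤ) | p) = if u % 4 = 1 then -1 else 1 := by
    have h7 : J((u : ℤ) * (w * 2 ^ M) | p) = 1 := by
      have h8 : (p : ℤ) ∣ (u : ℤ) * (w * 2 ^ M) - 2 ^ (M + Δ) := by
        have : (u : ℤ) * (w * 2 ^ M) - 2 ^ (M + Δ) = (u * w - 2 ^ Δ) * 2 ^ M := by ring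
        rw [this]; exact Dvd.dvd.mul_right h1 _
      rw [J_congr h8, jacobiSym.pow_left, pow_even_unit h2p hpar]
    rw [jacobiSym.mul_left] at h7
    rcases he with he | he
    · -- `w 2^M ≡ 1`
      have h9 : J((w : ℤ) * 2 ^ M | p) = 1 := by
        have h10 : (p : ℤ) ∣ (w : ℤ) * 2 ^ M - 1 := by
          have : (w : ℤ) * 2 ^ M - 1 = u * p ^ E := by
            have : (w : ℤ) * 2 ^ M = u * p ^ E + 1 := by exact_mod_cast he
            rw [this]; ring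
          rw [this]; exact Dvd.dvd.mul_left hpdvd _
        rw [J_congr h10, jacobiSym.one_left]
      rw [h9, mul_one] at h7
      rw [h7, if_neg]
      omega
    · have h9 : J((w : ℤ) * 2 ^ M | p) = -1 := by
        have h10 : (p : ℤ) ∣ (w : ℤ) * 2 ^ M - (-1) := by
          have : (w : ℤ) * 2 ^ M - (-1) = u * p ^ E := by
            have : (u : ℤ) * p ^ E = w * 2 ^ M + 1 := by exact_mod_cast he
            rw [this]; ring
          rw [this]; exact Dvd.dvd.mul_left hpdvd _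
        rw [J_congr h10, J_neg_one (Nat.odd_iff.2 hp2), if_neg (by omega)]
      rw [h9] at h7
      rw [if_pos (by omega)]
      linarith
  have h11 := qr hp4 hodd hcop
  rw [h3, h6, one_mul] at h11
  split_ifs at h11 with h12

/-- the case where the power of `p` is odd -/
theorem jacB {p u w s M E e1 e2 e3 e4 : ℕ} (hp : p.Prime) (hp4 : p % 4 = 3) (hs : Odd s) (hM : 3 ≤ M)
    (hpar : Even (M + e1 + e2 + e3 + e4)) (hE : Odd E)
    (he : w * 2 ^ M = u * p ^ E + 1 ∨ u * p ^ E = w * 2 ^ M + 1)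
    (h1 : (p : ℤ) ∣ u * w * 2 ^ e1 + 2 ^ e2) (h2 : (u : ℤ) ∣ p ^ s * 2 ^ e3 - 2 ^ e4) : False := by
  have : Fact p.Prime := ⟨hp⟩
  have hp2 : p % 2 = 1 := by omega
  have h8 : (2 : ℕ) ^ M % 8 = 0 := by
    obtain ⟨k, rfl⟩ := Nat.exists_eq_add_of_le hM
    rw [pow_add]; omega
  have hw8 : w * 2 ^ M % 8 = 0 := by rw [Nat.mul_mod, h8]; simp
  have hpE : p ^ E % 8 = p % 8 := by
    obtain ⟨k, rfl⟩ := hE
    rw [pow_succ, pow_mul]
    have h3 : p ^ 2 % 8 = 1 := by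
      have : p % 8 = 3 ∨ p % 8 = 7 := by omega
      rcases this with h | h <;> rw [pow_two, Nat.mul_mod, h]
    rw [Nat.mul_mod, Nat.pow_mod, h3]; simp
  have hu8 : u * p ^ E % 8 = u * p % 8 := by rw [Nat.mul_mod, hpE, ← Nat.mul_mod]
  have hcop : Nat.Coprime u p := by
    rw [Nat.coprime_comm, hp.coprime_iff_not_dvd]
    intro hd
    have h3 : (p : ℤ) ∣ 2 ^ e2 := by
      have h4 : (p : ℤ) ∣ u * w * 2 ^ e1 :=
        Dvd.dvd.mul_right (Dvd.dvd.mul_right (Int.natCast_dvd_natCast.2 hd) _) _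
      exact (dvd_add_right h4).1 h1
    have h4 : p ∣ 2 ^ e2 := by exact_mod_cast h3
    have h5 : p ∣ 2 := hp.dvd_of_dvd_pow h4
    have h6 := Nat.le_of_dvd (by norm_num) h5
    have h7 : p = 1 ∨ p = 2 := by have := hp.two_le; omega
    omega
  have hup8 : u * p % 8 = 1 ∨ u * p % 8 = 7 := by
    rcases he with he | he <;> omega
  have hodd : Odd u := by
    have : Odd (u * p) := by rw [Nat.odd_iff]; omega
    exact (Nat.odd_mul.1 this).1
  have hpodd : Odd p := Nat.odd_iff.2 hp2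
  have h2u2 : J((2 : ℤ) | u) ^ 2 = 1 := by
    have h5 : Nat.Coprime 2 u := by rw [Nat.coprime_two_left]; exact hodd
    exact_mod_cast jacobiSym.sq_one (coprime_gcd h5)
  have h2p : J((2 : ℤ) | p) ^ 2 = 1 := by
    have h5 : Nat.Coprime 2 p := by rw [Nat.coprime_two_left]; exact hpodd
    exact_mod_cast jacobiSym.sq_one (coprime_gcd h5)
  have h2eq : J((2 : ℤ) | u) = J((2 : ℤ) | p) := by
    have h3 : J((2 : ℤ) | u * p) = 1 := J_two hup8
    have : NeZero u := ⟨by rintro rfl; simp at hodd⟩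
    have : NeZero p := ⟨hp.ne_zero⟩
    rw [jacobiSym.mul_right] at h3
    have h4 : J((2 : ℤ) | u) * (J((2 : ℤ) | p) ^ 2) = J((2 : ℤ) | p) := by
      rw [sq, ← mul_assoc, h3, one_mul]
    rwa [h2p, mul_one] at h4
  -- `J(p | u)`
  have hpu2 := jacobiSym.sq_one (coprime_gcd hcop.symm)
  have h3 : J((p : ℤ) | u) = J((2 : ℤ) | p) ^ (e3 + e4) := by
    have h4 := J_congr h2
    rw [jacobiSym.mul_left, jacobiSym.pow_left, jacobiSym.pow_left, jacobiSym.pow_left,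
      pow_odd_unit hpu2 hs, h2eq] at h4
    have h5 : J((2 : ℤ) | p) ^ e3 * J((2 : ℤ) | p) ^ e3 = 1 := by
      rw [← pow_add]; exact pow_even_unit h2p ⟨e3, rfl⟩
    calc J((p : ℤ) | u) = J((p : ℤ) | u) * (J((2 : ℤ) | p) ^ e3 * J((2 : ℤ) | p) ^ e3) := by
          rw [h5, mul_one]
      _ = (J((p : ℤ) | u) * J((2 : ℤ) | p) ^ e3) * J((2 : ℤ) | p) ^ e3 := by ring
      _ = J((2 : ℤ) | p) ^ e4 * J((2 : ℤ) | p) ^ e3 := by rw [h4]
      _ = J((2 : ℤ) | p) ^ (e3 + e4) := by rw [pow_add]; ring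
  -- `J(u | p)`
  have hE0 : E ≠ 0 := by rintro rfl; simp at hE
  have hpdvd : (p : ℤ) ∣ (p : ℤ) ^ E := dvd_pow_self _ hE0
  have hm1 : J((-1 : ℤ) | p) = -1 := by rw [J_neg_one hpodd, if_neg (by omega)]
  have h7 : J((u : ℤ) * (w * 2 ^ M) | p) * J((2 : ℤ) | p) ^ e1 = -(J((2 : ℤ) | p) ^ (M + e2)) := by
    have h8 : (p : ℤ) ∣ (u : ℤ) * (w * 2 ^ M) * 2 ^ e1 - (-1) * 2 ^ (M + e2) := by
      have : (u : ℤ) * (w * 2 ^ M) * 2 ^ e1 - (-1) * 2 ^ (M + e2) =
          (u * w * 2 ^ e1 + 2 ^ e2) * 2 ^ M := by ring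
      rw [this]; exact Dvd.dvd.mul_right h1 _
    have h9 := J_congr h8
    rw [jacobiSym.mul_left, jacobiSym.pow_left, jacobiSym.mul_left (-1), jacobiSym.pow_left, hm1] at h9
    rw [h9]; ring
  have h7' : J((u : ℤ) * (w * 2 ^ M) | p) = -(J((2 : ℤ) | p) ^ (M + e1 + e2)) := by
    have h5 : J((2 : ℤ) | p) ^ e1 * J((2 : ℤ) | p) ^ e1 = 1 := by
      rw [← pow_add]; exact pow_even_unit h2p ⟨e1, rfl⟩
    calc J((u : ℤ) * (w * 2 ^ M) | p)
        = J((u : ℤ) * (w * 2 ^ M) | p) * (J((2 : ℤ) | p) ^ e1 * J((2 : ℤ) | p) ^ e1) := by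
          rw [h5, mul_one]
      _ = (J((u : ℤ) * (w * 2 ^ M) | p) * J((2 : ℤ) | p) ^ e1) * J((2 : ℤ) | p) ^ e1 := by ring
      _ = -(J((2 : ℤ) | p) ^ (M + e2)) * J((2 : ℤ) | p) ^ e1 := by rw [h7]
      _ = -(J((2 : ℤ) | p) ^ (M + e1 + e2)) := by rw [pow_add, pow_add, pow_add]; ring
  rw [jacobiSym.mul_left] at h7'
  have h11 := qr hp4 hodd hcop
  rw [h3] at h11
  have hpar' : J((2 : ℤ) | p) ^ (e3 + e4) * J((2 : ℤ) | p) ^ (M + e1 + e2) = 1 := by
    rw [← pow_add]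
    have : e3 + e4 + (M + e1 + e2) = M + e1 + e2 + e3 + e4 := by ring
    rw [this]
    exact pow_even_unit h2p hpar
  rcases he with he | he
  · have h9 : J((w : ℤ) * 2 ^ M | p) = 1 := by
      have h10 : (p : ℤ) ∣ (w : ℤ) * 2 ^ M - 1 := by
        have : (w : ℤ) * 2 ^ M - 1 = u * p ^ E := by
          have : (w : ℤ) * 2 ^ M = u * p ^ E + 1 := by exact_mod_cast he
          rw [this]; ring
        rw [this]; exact Dvd.dvd.mul_left hpdvd _
      rw [J_congr h10, jacobiSym.one_left]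
    rw [h9, mul_one] at h7'
    rw [h7', mul_neg, hpar'] at h11
    have hu4 : u % 4 = 1 := by
      have h12 : u * p % 8 = 7 := by omega
      have h13 : u * p % 4 = 3 := by omega
      rw [Nat.mul_mod, hp4] at h13
      omega
    rw [if_pos hu4] at h11
    norm_num at h11
  · have h9 : J((w : ℤ) * 2 ^ M | p) = -1 := by
      have h10 : (p : ℤ) ∣ (w : ℤ) * 2 ^ M - (-1) := by
        have : (w : ℤ) * 2 ^ M - (-1) = u * p ^ E := by
          have : (u : ℤ) * p ^ E = w * 2 ^ M + 1 := by exact_mod_cast he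
          rw [this]; ring
        rw [this]; exact Dvd.dvd.mul_left hpdvd _
      rw [J_congr h10, hm1]
    rw [h9] at h7'
    have h12 : J((u : ℤ) | p) = J((2 : ℤ) | p) ^ (M + e1 + e2) := by linarith
    rw [h12, hpar'] at h11
    have hu4 : u % 4 = 3 := by
      have h12 : u * p % 8 = 1 := by omega
      have h13 : u * p % 4 = 1 := by omega
      rw [Nat.mul_mod, hp4] at h13
      omega
    rw [if_neg (by omega)] at h11
    norm_num at h11

theorem pp {p E y : ℕ} (hp : p.Prime) (h : p ^ E ∣ y * (y + 1)) : p ^ E ∣ y ∨ p ^ E ∣ y + 1 := by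
  rcases Nat.eq_zero_or_pos E with rfl | hE
  · left; simp
  · exact (Nat.Coprime.isPrimePow_dvd_mul (Nat.coprime_self_add_right.2 (Nat.coprime_one_right y))
      (hp.isPrimePow.pow hE.ne')).1 h

theorem split {p y E M R : ℕ} (hp : p.Prime) (hp2 : p ≠ 2) (hy : 0 < y)
    (h : y * (y + 1) = 2 ^ M * p ^ E * R) :
    2 ^ M * p ^ E ≤ y + 1 ∨ ∃ u w, u * w = R ∧
      ((y = u * p ^ E ∧ y + 1 = w * 2 ^ M) ∨ (y + 1 = u * p ^ E ∧ y = w * 2 ^ M)) := by
  have hc : Nat.Coprime (2 ^ M) (p ^ E) :=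
    Nat.Coprime.pow _ _ ((Nat.coprime_primes Nat.prime_two hp).2 (Ne.symm hp2))
  have h1 : p ^ E ∣ y ∨ p ^ E ∣ y + 1 := by
    apply pp hp
    rw [h]; exact Dvd.dvd.mul_right (Dvd.intro_left _ rfl) _
  have h2 : 2 ^ M ∣ y ∨ 2 ^ M ∣ y + 1 := by
    apply pp Nat.prime_two
    rw [h]; exact Dvd.dvd.mul_right (Dvd.intro _ rfl) _
  have hpos : 0 < 2 ^ M * p ^ E := Nat.mul_pos (Nat.pow_pos (by norm_num)) (Nat.pow_pos hp.pos)
  rcases h1 with h1 | h1 <;> rcases h2 with h2 | h2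
  · left
    exact (Nat.le_of_dvd hy (hc.mul_dvd_of_dvd_of_dvd h2 h1)).trans (Nat.le_succ _)
  · right
    obtain ⟨u, hu⟩ := h1
    obtain ⟨w, hw⟩ := h2
    refine ⟨u, w, ?_, Or.inl ⟨by rw [hu]; ring, by rw [hw]; ring⟩⟩
    apply Nat.eq_of_mul_eq_mul_left hpos
    rw [← h, hw, hu]
    ring
  · right
    obtain ⟨u, hu⟩ := h1
    obtain ⟨w, hw⟩ := h2
    refine ⟨u, w, ?_, Or.inr ⟨by rw [hu]; ring, by rw [hw]; ring⟩⟩
    apply Nat.eq_of_mul_eq_mul_left hpos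
    rw [← h, hu, hw]
    ring
  · left
    exact Nat.le_of_dvd (Nat.succ_pos _) (hc.mul_dvd_of_dvd_of_dvd h2 h1)

/-- the case `v_p(N) < v_p(m)` -/
theorem ntA {p : ℕ} (hp : p.Prime) (hp4 : p % 4 = 3) {α Δ t s R y : ℕ} (hs : Odd s)
    (hR : 2 ^ Δ = p ^ s + R) (hy0 : 0 < y) (hy : y * (y + 1) = 2 ^ (2 * α + Δ) * p ^ (2 * t) * R)
    (hlt : 2 * y + 1 + 1 < 2 ^ (α + 1 + Δ) * p ^ t) : False := by
  have hp2 : p ≠ 2 := by omega
  have hp3 : 3 ≤ p := by
    have := hp.two_le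
    omega
  have hs0 : s ≠ 0 := by rintro rfl; simp at hs
  have hps : p ≤ p ^ s := Nat.le_self_pow hs0 p
  have hΔ : 2 ≤ Δ := by
    by_contra hcon
    have : Δ = 0 ∨ Δ = 1 := by omega
    rcases this with rfl | rfl <;> simp at hR <;> omega
  have hbig : 2 ^ (α + 1 + Δ) * p ^ t ≤ 2 * (2 ^ (2 * α + Δ) * p ^ (2 * t)) := by
    have h1 : 2 * (2 ^ (2 * α + Δ) * p ^ (2 * t)) = 2 ^ (α + 1 + Δ) * p ^ t * (2 ^ α * p ^ t) := by ring
    rw [h1]
    exact Nat.le_mul_of_pos_right _ (Nat.mul_pos (Nat.pow_pos (by norm_num)) (Nat.pow_pos hp.pos))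
  have hnot : ¬ 2 ^ (2 * α + Δ) * p ^ (2 * t) ≤ y + 1 := by
    intro h; omega
  rcases split hp hp2 hy0 hy with h1 | ⟨u, w, huw, h1⟩
  · exact hnot h1
  rcases Nat.eq_zero_or_pos t with rfl | ht
  · apply hnot
    have hw : w ≠ 0 := by
      rintro rfl
      rcases h1 with h1 | h1 <;> omega
    have h2 : 2 ^ (2 * α + Δ) ≤ w * 2 ^ (2 * α + Δ) := Nat.le_mul_of_pos_left _ (Nat.pos_of_ne_zero hw)
    simp only [mul_zero, pow_zero, mul_one]
    rcases h1 with h1 | h1 <;> omega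
  by_cases hM : 3 ≤ 2 * α + Δ
  · refine jacA (w := w) (s := s) (M := 2 * α + Δ) (E := 2 * t) (Δ := Δ) hp hp4 hs hM ⟨α + Δ, by ring⟩
      ⟨t, by ring⟩ (by omega) ?_ (u := u) ?_ ?_
    · rcases h1 with h1 | h1
      · left; rw [← h1.2, ← h1.1]
      · right; rw [← h1.1, ← h1.2]
    · have h3 : (u : ℤ) * w - 2 ^ Δ = -(p : ℤ) ^ s := by
        have h4 : (2 : ℤ) ^ Δ = p ^ s + R := by exact_mod_cast hR
        have h5 : (u : ℤ) * w = R := by exact_mod_cast huw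
        rw [h4, h5]; ring
      rw [h3]
      exact (dvd_neg).2 (dvd_pow_self _ hs0)
    · have h3 : (2 : ℤ) ^ Δ - p ^ s = u * w := by
        have h4 : (2 : ℤ) ^ Δ = p ^ s + R := by exact_mod_cast hR
        have h5 : (u : ℤ) * w = R := by exact_mod_cast huw
        rw [h4, h5]; ring
      rw [h3]
      exact Dvd.intro _ rfl
  · have hα : α = 0 := by omega
    have hΔ2 : Δ = 2 := by omega
    subst hα hΔ2
    have hR1 : R = 1 := by
      have h2 : p ^ s ≤ 4 := by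
        have : (2 : ℕ) ^ 2 = 4 := by norm_num
        omega
      have h4 : p = 3 := by omega
      subst h4
      have h5 : 3 ^ s % 2 = 1 := by rw [Nat.pow_mod]; simp
      have : (2 : ℕ) ^ 2 = 4 := by norm_num
      omega
    rw [hR1] at hy
    have h6 : y * (y + 1) = (2 * p ^ t) ^ 2 := by rw [hy]; ring
    have h7 : y < 2 * p ^ t := by
      by_contra hcon
      rw [not_lt] at hcon
      have : (2 * p ^ t) ^ 2 ≤ y ^ 2 := Nat.pow_le_pow_left hcon 2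
      nlinarith
    have h8 : 2 * p ^ t < y + 1 := by
      by_contra hcon
      rw [not_lt] at hcon
      have : (y + 1) ^ 2 ≤ (2 * p ^ t) ^ 2 := Nat.pow_le_pow_left hcon 2
      nlinarith
    omega

/-- the case `v_p(N) > v_p(m)`, `v_2(N) > v_2(2 m)` -/
theorem ntB1 {p : ℕ} (hp : p.Prime) (hp4 : p % 4 = 3) {α Δ s r R y : ℕ} (hs : Odd s) (hr : 1 ≤ r)
    (hΔ : 1 ≤ Δ) (hR : 2 ^ Δ * p ^ s = R + 1) (hy0 : 0 < y)
    (hy : y * (y + 1) = 2 ^ (2 * α + Δ) * p ^ (s + 2 * r) * R)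
    (hlt : 2 * y + 1 + 1 < 2 ^ (α + 1 + Δ) * p ^ (r + s)) : False := by
  have hp2 : p ≠ 2 := by omega
  have hp3 : 3 ≤ p := by
    have := hp.two_le
    omega
  have hs0 : s ≠ 0 := by rintro rfl; simp at hs
  have hnot : ¬ 2 ^ (2 * α + Δ) * p ^ (s + 2 * r) ≤ y + 1 := by
    intro h
    have h1 : 2 * (2 ^ (2 * α + Δ) * p ^ (s + 2 * r)) =
        2 ^ (α + 1 + Δ) * p ^ (r + s) * (2 ^ α * p ^ r) := by ring
    have h2 : 2 ^ (α + 1 + Δ) * p ^ (r + s) ≤ 2 ^ (α + 1 + Δ) * p ^ (r + s) * (2 ^ α * p ^ r) :=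
      Nat.le_mul_of_pos_right _ (Nat.mul_pos (Nat.pow_pos (by norm_num)) (Nat.pow_pos hp.pos))
    omega
  rcases split hp hp2 hy0 hy with h1 | ⟨u, w, huw, h1⟩
  · exact hnot h1
  by_cases hM : 3 ≤ 2 * α + Δ
  · refine jacB (w := w) (s := s) (M := 2 * α + Δ) (E := s + 2 * r) (e1 := 0) (e2 := 0) (e3 := Δ)
      (e4 := 0) hp hp4 hs hM ⟨α + Δ, by ring⟩ ?_ ?_ (u := u) ?_ ?_
    · obtain ⟨k, rfl⟩ := hs
      exact ⟨k + r, by ring⟩
    · rcases h1 with h1 | h1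
      · left; rw [← h1.2, ← h1.1]
      · right; rw [← h1.1, ← h1.2]
    · have h3 : (u : ℤ) * w * 2 ^ 0 + 2 ^ 0 = 2 ^ Δ * p ^ s := by
        have h4 : (2 : ℤ) ^ Δ * p ^ s = R + 1 := by exact_mod_cast hR
        have h5 : (u : ℤ) * w = R := by exact_mod_cast huw
        rw [h4, h5]; ring
      rw [h3]
      exact Dvd.dvd.mul_left (dvd_pow_self _ hs0) _
    · have h3 : (p : ℤ) ^ s * 2 ^ Δ - 2 ^ 0 = u * w := by
        have h4 : (2 : ℤ) ^ Δ * p ^ s = R + 1 := by exact_mod_cast hR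
        have h5 : (u : ℤ) * w = R := by exact_mod_cast huw
        rw [mul_comm, h4, h5]; ring
      rw [h3]
      exact Dvd.intro _ rfl
  · have hα : α = 0 := by omega
    subst hα
    have hu0 : 0 < u := by
      rcases Nat.eq_zero_or_pos u with rfl | h
      · rcases h1 with h1 | h1 <;> omega
      · exact h
    -- size: `u p ^ r < 2 ^ Δ`
    have h2 : 2 * (u * p ^ (s + 2 * r)) ≤ 2 * y + 1 + 1 := by
      rcases h1 with h1 | h1 <;> omega
    have h3 : p ^ (r + s) * (u * p ^ r) < p ^ (r + s) * 2 ^ Δ := by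
      have h4 : 2 * (u * p ^ (s + 2 * r)) = 2 * (p ^ (r + s) * (u * p ^ r)) := by ring
      have h5 : 2 ^ (0 + 1 + Δ) * p ^ (r + s) = 2 * (p ^ (r + s) * 2 ^ Δ) := by ring
      omega
    have h4 : u * p ^ r < 2 ^ Δ := lt_of_mul_lt_mul_left h3 (Nat.zero_le _)
    have hpr : p ≤ p ^ r := Nat.le_self_pow (by omega) p
    have hΔ2 : Δ = 2 := by
      have : Δ = 1 ∨ Δ = 2 := by omega
      rcases this with rfl | h
      · exfalso
        have : p ^ r ≤ u * p ^ r := Nat.le_mul_of_pos_left _ hu0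
        omega
      · exact h
    subst hΔ2
    have h5 : p ^ r ≤ u * p ^ r := Nat.le_mul_of_pos_left _ hu0
    have h6 : (2 : ℕ) ^ 2 = 4 := by norm_num
    have h7 : p = 3 := by omega
    subst h7
    have h8 : 3 ^ r = 3 := by
      have : 3 ^ r % 2 = 1 := by rw [Nat.pow_mod]; simp
      omega
    have h9 : u = 1 := by
      by_contra hcon
      have : 2 ≤ u := by omega
      have : 2 * 3 ≤ u * 3 ^ r := Nat.mul_le_mul this (by omega)
      omega
    subst h9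
    have h10 : 3 ^ (s + 2 * r) = 9 * 3 ^ s := by
      rw [pow_add, mul_comm 2 r, pow_mul, h8]; ring
    have h11 : 4 * 3 ^ s = R + 1 := by rw [← hR, h6]
    rw [one_mul] at huw
    rw [h10] at h1
    have h12 : w * 2 ^ (2 * 0 + 2) = 4 * w := by ring
    rw [h12] at h1
    rcases h1 with h1 | h1 <;> omega

/-- the case `v_p(N) > v_p(m)`, `v_2(N) = v_2(2 m)` -/
theorem ntB2 {p : ℕ} (hp : p.Prime) (hp4 : p % 4 = 3) {β s r R y : ℕ} (hs : Odd s) (_hr : 1 ≤ r)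
    (hβ : 1 ≤ β) (hR : p ^ s = 2 * R + 1) (hy0 : 0 < y)
    (hy : y * (y + 1) = 2 ^ (2 * β - 1) * p ^ (s + 2 * r) * R)
    (hlt : 2 * y + 1 + 1 < 2 ^ β * p ^ (r + s)) : False := by
  have hp2 : p ≠ 2 := by omega
  have hp3 : 3 ≤ p := by
    have := hp.two_le
    omega
  have hs0 : s ≠ 0 := by rintro rfl; simp at hs
  obtain ⟨b, rfl⟩ : ∃ b, β = b + 1 := ⟨β - 1, by omega⟩
  have hM' : 2 * (b + 1) - 1 = 2 * b + 1 := by omega
  rw [hM'] at hy
  have hnot : ¬ 2 ^ (2 * b + 1) * p ^ (s + 2 * r) ≤ y + 1 := by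
    intro h
    have h1 : 2 * (2 ^ (2 * b + 1) * p ^ (s + 2 * r)) =
        2 ^ (b + 1) * p ^ (r + s) * (2 ^ (b + 1) * p ^ r) := by ring
    have h2 : 2 ^ (b + 1) * p ^ (r + s) ≤ 2 ^ (b + 1) * p ^ (r + s) * (2 ^ (b + 1) * p ^ r) :=
      Nat.le_mul_of_pos_right _ (Nat.mul_pos (Nat.pow_pos (by norm_num)) (Nat.pow_pos hp.pos))
    omega
  rcases split hp hp2 hy0 hy with h1 | ⟨u, w, huw, h1⟩
  · exact hnot h1
  by_cases hM : 3 ≤ 2 * b + 1
  · refine jacB (w := w) (s := s) (M := 2 * b + 1) (E := s + 2 * r) (e1 := 1) (e2 := 0) (e3 := 0)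
      (e4 := 0) hp hp4 hs hM ⟨b + 1, by ring⟩ ?_ ?_ (u := u) ?_ ?_
    · obtain ⟨k, rfl⟩ := hs
      exact ⟨k + r, by ring⟩
    · rcases h1 with h1 | h1
      · left; rw [← h1.2, ← h1.1]
      · right; rw [← h1.1, ← h1.2]
    · have h3 : (u : ℤ) * w * 2 ^ 1 + 2 ^ 0 = p ^ s := by
        have h4 : (p : ℤ) ^ s = 2 * R + 1 := by exact_mod_cast hR
        have h5 : (u : ℤ) * w = R := by exact_mod_cast huw
        rw [h4, h5]; ring
      rw [h3]
      exact dvd_pow_self _ hs0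
    · have h3 : (p : ℤ) ^ s * 2 ^ 0 - 2 ^ 0 = u * (2 * w) := by
        have h4 : (p : ℤ) ^ s = 2 * R + 1 := by exact_mod_cast hR
        have h5 : (u : ℤ) * w = R := by exact_mod_cast huw
        rw [h4]; linear_combination (-2 : ℤ) * h5
      rw [h3]
      exact Dvd.intro _ rfl
  · have hb : b = 0 := by omega
    subst hb
    have hu0 : 0 < u := by
      rcases Nat.eq_zero_or_pos u with rfl | h
      · rcases h1 with h1 | h1 <;> omega
      · exact h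
    have h2 : 2 * (u * p ^ (s + 2 * r)) ≤ 2 * y + 1 + 1 := by
      rcases h1 with h1 | h1 <;> omega
    have h3 : p ^ (r + s) ≤ u * p ^ (s + 2 * r) := by
      have h4 : u * p ^ (s + 2 * r) = p ^ (r + s) * (u * p ^ r) := by ring
      rw [h4]
      exact Nat.le_mul_of_pos_right _ (Nat.mul_pos hu0 (Nat.pow_pos hp.pos))
    simp only [zero_add, pow_one] at hlt
    omega

/-- the case `v_p(N) > v_p(m)`, `v_2(N) < v_2(2 m)` -/
theorem ntB3 {p : ℕ} (hp : p.Prime) (hp4 : p % 4 = 3) {β Δ s r R y : ℕ} (hs : Odd s) (hr : 1 ≤ r)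
    (hβ : 1 ≤ β) (hR : p ^ s = R + 2 ^ Δ) (hy0 : 0 < y)
    (hy : y * (y + 1) = 2 ^ (2 * β - 2) * p ^ (s + 2 * r) * R)
    (hlt : 2 * y + 1 + 1 < 2 ^ β * p ^ (r + s)) : False := by
  have hp2 : p ≠ 2 := by omega
  have hp3 : 3 ≤ p := by
    have := hp.two_le
    omega
  have hs0 : s ≠ 0 := by rintro rfl; simp at hs
  obtain ⟨b, rfl⟩ : ∃ b, β = b + 1 := ⟨β - 1, by omega⟩
  have hM' : 2 * (b + 1) - 2 = 2 * b := by omega
  rw [hM'] at hy
  have hpr : 3 ≤ p ^ r := hp3.trans (Nat.le_self_pow (by omega) p)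
  have hnot : ¬ 2 ^ (2 * b) * p ^ (s + 2 * r) ≤ y + 1 := by
    intro h
    have h1 : 2 * (2 ^ (2 * b) * p ^ (s + 2 * r)) =
        2 ^ (b + 1) * p ^ (r + s) * (2 ^ b * p ^ r) := by ring
    have h2 : 2 ^ (b + 1) * p ^ (r + s) ≤ 2 ^ (b + 1) * p ^ (r + s) * (2 ^ b * p ^ r) :=
      Nat.le_mul_of_pos_right _ (Nat.mul_pos (Nat.pow_pos (by norm_num)) (Nat.pow_pos hp.pos))
    omega
  rcases split hp hp2 hy0 hy with h1 | ⟨u, w, huw, h1⟩
  · exact hnot h1
  by_cases hM : 3 ≤ 2 * b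
  · refine jacB (w := w) (s := s) (M := 2 * b) (E := s + 2 * r) (e1 := 0) (e2 := Δ) (e3 := 0)
      (e4 := Δ) hp hp4 hs hM ⟨b + Δ, by ring⟩ ?_ ?_ (u := u) ?_ ?_
    · obtain ⟨k, rfl⟩ := hs
      exact ⟨k + r, by ring⟩
    · rcases h1 with h1 | h1
      · left; rw [← h1.2, ← h1.1]
      · right; rw [← h1.1, ← h1.2]
    · have h3 : (u : ℤ) * w * 2 ^ 0 + 2 ^ Δ = p ^ s := by
        have h4 : (p : ℤ) ^ s = R + 2 ^ Δ := by exact_mod_cast hR
        have h5 : (u : ℤ) * w = R := by exact_mod_cast huw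
        rw [h4, h5]; ring
      rw [h3]
      exact dvd_pow_self _ hs0
    · have h3 : (p : ℤ) ^ s * 2 ^ 0 - 2 ^ Δ = u * w := by
        have h4 : (p : ℤ) ^ s = R + 2 ^ Δ := by exact_mod_cast hR
        have h5 : (u : ℤ) * w = R := by exact_mod_cast huw
        rw [h4, h5]; ring
      rw [h3]
      exact Dvd.intro _ rfl
  · have hu0 : 0 < u := by
      rcases Nat.eq_zero_or_pos u with rfl | h
      · rcases h1 with h1 | h1 <;> omega
      · exact h
    have h2 : 2 * (u * p ^ (s + 2 * r)) ≤ 2 * y + 1 + 1 := by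
      rcases h1 with h1 | h1 <;> omega
    have h3 : 3 * p ^ (r + s) ≤ u * p ^ (s + 2 * r) := by
      have h4 : u * p ^ (s + 2 * r) = p ^ r * (u * p ^ (r + s)) := by ring
      rw [h4]
      exact Nat.mul_le_mul hpr (Nat.le_mul_of_pos_left _ hu0)
    have hb : b = 0 ∨ b = 1 := by omega
    rcases hb with rfl | rfl
    · simp only [zero_add, pow_one] at hlt
      omega
    · have : (2 : ℕ) ^ (1 + 1) = 4 := by norm_num
      rw [this] at hlt
      omega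

end Pool.Agent.MinusOne
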