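import Pool.Agent.Helper62.MinusOne.NT

set_option autoImplicit false

namespace Pool.Agent.MinusOne

theorem two_part {p : ℕ} (hp : p.Prime) (hp2 : p ≠ 2) {i j k l : ℕ}
    (h : 2 ^ i * p ^ j = 2 ^ k * p ^ l) : i = k ∧ j = l := by
  have hc : ∀ a b : ℕ, Nat.Coprime (2 ^ a) (p ^ b) := fun a b =>
    Nat.Coprime.pow _ _ ((Nat.coprime_primes Nat.prime_two hp).2 (Ne.symm hp2))
  have h1 : 2 ^ i ∣ 2 ^ k := (hc i l).dvd_of_dvd_mul_right (h ▸ Dvd.intro _ rfl)
  have h2 : 2 ^ k ∣ 2 ^ i := (hc k j).dvd_of_dvd_mul_right (h ▸ Dvd.intro _ rfl)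
  have h3 : p ^ j ∣ p ^ l := (hc k j).symm.dvd_of_dvd_mul_left (h ▸ Dvd.intro_left _ rfl)
  have h4 : p ^ l ∣ p ^ j := (hc i l).symm.dvd_of_dvd_mul_left (h ▸ Dvd.intro_left _ rfl)
  have h5 := Nat.dvd_antisymm h1 h2
  have h6 := Nat.dvd_antisymm h3 h4
  exact ⟨Nat.pow_right_injective le_rfl h5, Nat.pow_right_injective hp.two_le h6⟩

/-- the Diophantine equation has no solutions -/
theorem nt {p : ℕ} (hp : p.Prime) (hp4 : p % 4 = 3) {a c N m x : ℕ} (hc : Odd c)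
    (h : 2 * N * m = 2 ^ a * p ^ c) (hpm : p ∣ m) (hx : x ^ 2 + 2 * N * m = N ^ 2 + 1) : False := by
  have hp2 : p ≠ 2 := by omega
  have hp3 : 3 ≤ p := by
    have := hp.two_le
    omega
  -- shapes of `N` and `m`
  have hNd : N ∣ 2 ^ a * p ^ c := by rw [← h]; exact ⟨2 * m, by ring⟩
  have hmd : m ∣ 2 ^ a * p ^ c := by rw [← h]; exact ⟨2 * N, by ring⟩
  obtain ⟨β, t, hN⟩ : ∃ β t, N = 2 ^ β * p ^ t := by
    obtain ⟨y, z, hy, hz, rfl⟩ := (Nat.dvd_mul).1 hNd
    obtain ⟨β, -, rfl⟩ := (Nat.dvd_prime_pow Nat.prime_two).1 hy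
    obtain ⟨t, -, rfl⟩ := (Nat.dvd_prime_pow hp).1 hz
    exact ⟨β, t, rfl⟩
  obtain ⟨α, r, hm⟩ : ∃ α r, m = 2 ^ α * p ^ r := by
    obtain ⟨y, z, hy, hz, rfl⟩ := (Nat.dvd_mul).1 hmd
    obtain ⟨β, -, rfl⟩ := (Nat.dvd_prime_pow Nat.prime_two).1 hy
    obtain ⟨t, -, rfl⟩ := (Nat.dvd_prime_pow hp).1 hz
    exact ⟨β, t, rfl⟩
  have hexp : 1 + β + α = a ∧ t + r = c := by
    apply two_part hp hp2
    rw [← h, hN, hm]; ring
  have hr : 1 ≤ r := by
    by_contra hcon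
    have : r = 0 := by omega
    subst this
    rw [hm, pow_zero, mul_one] at hpm
    have h1 := hp.dvd_of_dvd_pow hpm
    have h2 := Nat.le_of_dvd (by norm_num) h1
    omega
  have hN0 : 0 < N := by rw [hN]; exact Nat.mul_pos (Nat.pow_pos (by norm_num)) (Nat.pow_pos hp.pos)
  have hm0 : 0 < m := by rw [hm]; exact Nat.mul_pos (Nat.pow_pos (by norm_num)) (Nat.pow_pos hp.pos)
  have hm3 : 3 ≤ m := hp3.trans (Nat.le_of_dvd hm0 hpm)
  have hodd : Odd (t + r) := by rw [hexp.2]; exact hc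
  have htr : t ≠ r := by
    rintro rfl
    rw [Nat.odd_iff] at hodd
    omega
  have hN2m : 2 * m < N := by
    by_contra hcon
    rw [not_lt] at hcon
    rcases hcon.lt_or_eq with h1 | h1
    · have h2 : N * (N + 1) ≤ N * (2 * m) := Nat.mul_le_mul_left _ h1
      have h3 : N ≤ 1 := by nlinarith
      have h4 : N = 1 := by omega
      subst h4
      have : x ^ 2 + 2 * 1 * m = 2 := by rw [hx]; norm_num
      omega
    · apply htr
      have h2 : 2 ^ β * p ^ t = 2 ^ (α + 1) * p ^ r := by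
        rw [← hN, h1, hm]; ring
      exact (two_part hp hp2 h2).2
  have hxN : x + 1 < N := by
    by_contra hcon
    rw [not_lt] at hcon
    have h1 : N ≤ x + 1 := hcon
    have h2 : N * N ≤ N * (x + 1) := Nat.mul_le_mul_left _ h1
    have h3 : (N - 1) * (N - 1) ≤ x * x := Nat.mul_self_le_mul_self (by omega)
    obtain ⟨n, rfl⟩ : ∃ n, N = n + 1 := ⟨N - 1, by omega⟩
    simp only [Nat.add_sub_cancel] at h3
    nlinarith
  have hx2 : 2 ≤ x := by
    by_contra hcon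
    have h1 : x ^ 2 ≤ 1 := by
      have : x ≤ 1 := by omega
      calc x ^ 2 ≤ 1 ^ 2 := Nat.pow_le_pow_left this 2
        _ = 1 := by norm_num
    nlinarith
  rcases Nat.lt_or_gt_of_ne htr with ht | ht
  · -- `t < r`
    obtain ⟨s, rfl⟩ : ∃ s, r = t + s := ⟨r - t, by omega⟩
    have hs : Odd s := by
      have : t + (t + s) = 2 * t + s := by ring
      rw [this, Nat.odd_add'] at hodd
      exact hodd.2 (even_two_mul t)
    have hs0 : s ≠ 0 := by rintro rfl; simp at hs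
    have hps : 3 ≤ p ^ s := hp3.trans (Nat.le_self_pow hs0 p)
    have hpt : 0 < p ^ t := Nat.pow_pos hp.pos
    have h1 : 2 ^ (α + 1) * p ^ s < 2 ^ β := by
      have h2 : p ^ t * (2 ^ (α + 1) * p ^ s) < p ^ t * 2 ^ β := by
        have h3 : 2 * m = p ^ t * (2 ^ (α + 1) * p ^ s) := by rw [hm]; ring
        have h4 : N = p ^ t * 2 ^ β := by rw [hN]; ring
        rw [← h3, ← h4]; exact hN2m
      exact lt_of_mul_lt_mul_left h2 (Nat.zero_le _)
    have h2 : α + 1 < β := by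
      by_contra hcon
      have h3 : 2 ^ β ≤ 2 ^ (α + 1) := Nat.pow_le_pow_right (by norm_num) (by omega)
      have h4 : 2 ^ (α + 1) ≤ 2 ^ (α + 1) * p ^ s := Nat.le_mul_of_pos_right _ (by omega)
      omega
    obtain ⟨Δ, rfl⟩ : ∃ Δ, β = α + 1 + Δ := ⟨β - (α + 1), by omega⟩
    have h3 : p ^ s < 2 ^ Δ := by
      have h4 : 2 ^ (α + 1) * p ^ s < 2 ^ (α + 1) * 2 ^ Δ := by rw [← pow_add]; exact h1
      exact lt_of_mul_lt_mul_left h4 (Nat.zero_le _)
    obtain ⟨R, hR⟩ : ∃ R, 2 ^ Δ = p ^ s + R := ⟨2 ^ Δ - p ^ s, by omega⟩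
    have h5 : N ^ 2 = 2 * N * m + 4 * (2 ^ (2 * α + Δ) * p ^ (2 * t) * R) := by
      calc N ^ 2 = 2 ^ (2 * α + 2 + Δ) * p ^ (2 * t) * 2 ^ Δ := by rw [hN]; ring
        _ = 2 ^ (2 * α + 2 + Δ) * p ^ (2 * t) * (p ^ s + R) := by rw [hR]
        _ = 2 * N * m + 4 * (2 ^ (2 * α + Δ) * p ^ (2 * t) * R) := by rw [hN, hm]; ring
    have h6 : x ^ 2 = 4 * (2 ^ (2 * α + Δ) * p ^ (2 * t) * R) + 1 := by omega
    have hxo : Odd x := by
      have : Odd (x ^ 2) := by rw [h6]; exact ⟨2 * (2 ^ (2 * α + Δ) * p ^ (2 * t) * R), by ring⟩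
      exact (Nat.odd_pow_iff (by norm_num)).1 this
    obtain ⟨y, rfl⟩ := hxo
    refine ntA hp hp4 (α := α) (Δ := Δ) (t := t) (s := s) (R := R) (y := y) hs hR (by omega) ?_ ?_
    · have : (2 * y + 1) ^ 2 = 4 * (y * (y + 1)) + 1 := by ring
      omega
    · rw [← hN]; exact hxN
  · -- `r < t`
    obtain ⟨s, rfl⟩ : ∃ s, t = r + s := ⟨t - r, by omega⟩
    have hs : Odd s := by
      have : r + s + r = 2 * r + s := by ring
      rw [this, Nat.odd_add'] at hodd
      exact hodd.2 (even_two_mul r)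
    have hs0 : s ≠ 0 := by rintro rfl; simp at hs
    have hps : 3 ≤ p ^ s := hp3.trans (Nat.le_self_pow hs0 p)
    have hpr : 0 < p ^ r := Nat.pow_pos hp.pos
    rcases lt_trichotomy (α + 1) β with hβ | hβ | hβ
    · obtain ⟨Δ, rfl⟩ : ∃ Δ, β = α + 1 + Δ := ⟨β - (α + 1), by omega⟩
      have h1 : 0 < 2 ^ Δ * p ^ s := Nat.mul_pos (Nat.pow_pos (by norm_num)) (by omega)
      obtain ⟨R, hR⟩ : ∃ R, 2 ^ Δ * p ^ s = R + 1 := ⟨2 ^ Δ * p ^ s - 1, by omega⟩
      have h5 : N ^ 2 = 2 * N * m + 4 * (2 ^ (2 * α + Δ) * p ^ (s + 2 * r) * R) := by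
        calc N ^ 2 = 2 ^ (2 * α + 2 + Δ) * p ^ (s + 2 * r) * (2 ^ Δ * p ^ s) := by rw [hN]; ring
          _ = 2 ^ (2 * α + 2 + Δ) * p ^ (s + 2 * r) * (R + 1) := by rw [hR]
          _ = 2 * N * m + 4 * (2 ^ (2 * α + Δ) * p ^ (s + 2 * r) * R) := by rw [hN, hm]; ring
      have h6 : x ^ 2 = 4 * (2 ^ (2 * α + Δ) * p ^ (s + 2 * r) * R) + 1 := by omega
      have hxo : Odd x := by
        have : Odd (x ^ 2) := by rw [h6]; exact ⟨2 * (2 ^ (2 * α + Δ) * p ^ (s + 2 * r) * R), by ring⟩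
        exact (Nat.odd_pow_iff (by norm_num)).1 this
      obtain ⟨y, rfl⟩ := hxo
      refine ntB1 hp hp4 (α := α) (Δ := Δ) (s := s) (r := r) (R := R) (y := y) hs hr (by omega) hR
        (by omega) ?_ ?_
      · have : (2 * y + 1) ^ 2 = 4 * (y * (y + 1)) + 1 := by ring
        omega
      · rw [← hN]; exact hxN
    · subst hβ
      have hpso : p ^ s % 2 = 1 := by
        rw [Nat.pow_mod]
        have : p % 2 = 1 := by omega
        rw [this]; simp
      obtain ⟨R, hR⟩ : ∃ R, p ^ s = 2 * R + 1 := ⟨p ^ s / 2, by omega⟩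
      have h5 : N ^ 2 = 2 * N * m + 4 * (2 ^ (2 * α + 1) * p ^ (s + 2 * r) * R) := by
        calc N ^ 2 = 2 ^ (2 * α + 2) * p ^ (s + 2 * r) * p ^ s := by rw [hN]; ring
          _ = 2 ^ (2 * α + 2) * p ^ (s + 2 * r) * (2 * R + 1) := by rw [hR]
          _ = 2 * N * m + 4 * (2 ^ (2 * α + 1) * p ^ (s + 2 * r) * R) := by rw [hN, hm]; ring
      have h6 : x ^ 2 = 4 * (2 ^ (2 * α + 1) * p ^ (s + 2 * r) * R) + 1 := by omega
      have hxo : Odd x := by
        have : Odd (x ^ 2) := by rw [h6]; exact ⟨2 * (2 ^ (2 * α + 1) * p ^ (s + 2 * r) * R), by ring⟩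
        exact (Nat.odd_pow_iff (by norm_num)).1 this
      obtain ⟨y, rfl⟩ := hxo
      refine ntB2 hp hp4 (β := α + 1) (s := s) (r := r) (R := R) (y := y) hs hr (by omega) hR
        (by omega) ?_ ?_
      · have h7 : (2 * y + 1) ^ 2 = 4 * (y * (y + 1)) + 1 := by ring
        have h8 : 2 * (α + 1) - 1 = 2 * α + 1 := by omega
        rw [h8]; omega
      · rw [← hN]; exact hxN
    · -- `β ≤ α`
      obtain ⟨Δ, hΔ⟩ : ∃ Δ, α + 1 = β + Δ := ⟨α + 1 - β, by omega⟩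
      have hΔ1 : 1 ≤ Δ := by omega
      have h2m : 2 * m = 2 ^ (β + Δ) * p ^ r := by rw [hm, ← hΔ]; ring
      have h3 : 2 ^ Δ < p ^ s := by
        have h4 : 2 ^ β * p ^ r * 2 ^ Δ < 2 ^ β * p ^ r * p ^ s := by
          have h5 : 2 ^ β * p ^ r * 2 ^ Δ = 2 * m := by rw [h2m]; ring
          have h6 : 2 ^ β * p ^ r * p ^ s = N := by rw [hN]; ring
          rw [h5, h6]; exact hN2m
        exact lt_of_mul_lt_mul_left h4 (Nat.zero_le _)
      obtain ⟨R, hR⟩ : ∃ R, p ^ s = R + 2 ^ Δ := ⟨p ^ s - 2 ^ Δ, by omega⟩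
      have h5 : N ^ 2 = 2 * N * m + 2 ^ (2 * β) * p ^ (s + 2 * r) * R := by
        calc N ^ 2 = 2 ^ (2 * β) * p ^ (s + 2 * r) * p ^ s := by rw [hN]; ring
          _ = 2 ^ (2 * β) * p ^ (s + 2 * r) * (R + 2 ^ Δ) := by rw [hR]
          _ = N * (2 * m) + 2 ^ (2 * β) * p ^ (s + 2 * r) * R := by rw [hN, h2m]; ring
          _ = 2 * N * m + 2 ^ (2 * β) * p ^ (s + 2 * r) * R := by ring
      have h6 : x ^ 2 = 2 ^ (2 * β) * p ^ (s + 2 * r) * R + 1 := by omega
      rcases Nat.eq_zero_or_pos β with hβ0 | hβ0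
      · -- `N` is odd
        subst hβ0
        have hpso : p ^ s % 2 = 1 := by
          rw [Nat.pow_mod]
          have : p % 2 = 1 := by omega
          rw [this]; simp
        have hpso' : p ^ (s + 2 * r) % 2 = 1 := by
          rw [Nat.pow_mod]
          have : p % 2 = 1 := by omega
          rw [this]; simp
        have h2Δ : 2 ^ Δ % 2 = 0 := by
          obtain ⟨e, rfl⟩ : ∃ e, Δ = e + 1 := ⟨Δ - 1, by omega⟩
          rw [pow_succ]; omega
        have hRo : R % 2 = 1 := by omega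
        simp only [mul_zero, pow_zero, one_mul] at h6
        have hprod : p ^ (s + 2 * r) * R % 2 = 1 := by rw [Nat.mul_mod, hpso', hRo]
        have hx2e : x ^ 2 % 2 = 0 := by omega
        have hxe : x % 2 = 0 := by
          rcases Nat.mod_two_eq_zero_or_one x with h7 | h7
          · exact h7
          · rw [Nat.pow_mod, h7] at hx2e; simp at hx2e
        have h7 : (x - 1) * (x + 1) = p ^ (s + 2 * r) * R := by
          obtain ⟨z, rfl⟩ : ∃ z, x = z + 1 := ⟨x - 1, by omega⟩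
          rw [Nat.add_sub_cancel]
          have h8 : (z + 1) ^ 2 = z * (z + 1 + 1) + 1 := by ring
          rw [h8] at h6
          exact Nat.add_right_cancel h6
        have hco : Nat.Coprime (x - 1) (x + 1) := by
          obtain ⟨z, rfl⟩ : ∃ z, x = z + 1 := ⟨x - 1, by omega⟩
          rw [Nat.add_sub_cancel]
          have h8 : z + 1 + 1 = z + 2 := by ring
          rw [h8, Nat.coprime_self_add_right, Nat.coprime_two_right]
          rw [Nat.odd_iff]; omega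
        have h8 : p ^ (s + 2 * r) ∣ x - 1 ∨ p ^ (s + 2 * r) ∣ x + 1 := by
          apply (Nat.Coprime.isPrimePow_dvd_mul hco (hp.isPrimePow.pow (by omega))).1
          rw [h7]; exact Dvd.intro _ rfl
        have h9 : p ^ (s + 2 * r) ≤ x + 1 := by
          rcases h8 with h8 | h8
          · exact (Nat.le_of_dvd (by omega) h8).trans (by omega)
          · exact Nat.le_of_dvd (by omega) h8
        have h10 : N ≤ p ^ (s + 2 * r) := by
          rw [hN, pow_zero, one_mul]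
          exact Nat.pow_le_pow_right hp.pos (by omega)
        omega
      · obtain ⟨b, rfl⟩ : ∃ b, β = b + 1 := ⟨β - 1, by omega⟩
        have h6' : x ^ 2 = 4 * (2 ^ (2 * b) * p ^ (s + 2 * r) * R) + 1 := by rw [h6]; ring
        have hxo : Odd x := by
          have : Odd (x ^ 2) := by rw [h6']; exact ⟨2 * (2 ^ (2 * b) * p ^ (s + 2 * r) * R), by ring⟩
          exact (Nat.odd_pow_iff (by norm_num)).1 this
        obtain ⟨y, rfl⟩ := hxo
        refine ntB3 hp hp4 (β := b + 1) (Δ := Δ) (s := s) (r := r) (R := R) (y := y) hs hr (by omega) hR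
          (by omega) ?_ ?_
        · have h7 : (2 * y + 1) ^ 2 = 4 * (y * (y + 1)) + 1 := by ring
          have h8 : 2 * (b + 1) - 2 = 2 * b := by omega
          rw [h8]; omega
        · rw [← hN]; exact hxN

end Pool.Agent.MinusOne
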